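import Mathlib
import Pool.Agent.Helper540.Taylor

set_option autoImplicit false

namespace Pool.Agent.Results.MP_5d6127_an.SharpLarger

open Metric Set Filter Topology

/-- A normalized Loewner chain on the unit bidisc (the unit ball of `Fin 2 → ℂ` with its maximum
norm): every `F t`, `t ≥ 0`, is holomorphic and injective on the bidisc, `F t 0 = 0`,
`D(F t)(0) = e^t I`, and the images increase. -/
structure IsLoewnerChain (F : ℝ → (Fin 2 → ℂ) → (Fin 2 → ℂ)) : Prop where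
  holo : ∀ t, 0 ≤ t → DifferentiableOn ℂ (F t) (ball 0 1)
  inj : ∀ t, 0 ≤ t → InjOn (F t) (ball 0 1)
  zero : ∀ t, 0 ≤ t → F t 0 = 0
  deriv : ∀ t, 0 ≤ t → fderiv ℂ (F t) 0 =
    ((Real.exp t : ℝ) : ℂ) • ContinuousLinearMap.id ℂ (Fin 2 → ℂ)
  sub : ∀ s t, 0 ≤ s → s ≤ t → F s '' ball 0 1 ⊆ F t '' ball 0 1

/-- A family of maps is normal on the unit bidisc if every sequence in it has a subsequence which
converges locally uniformly on the bidisc. -/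
def IsNormalFamily (𝓕 : Set ((Fin 2 → ℂ) → (Fin 2 → ℂ))) : Prop :=
  ∀ g : ℕ → (Fin 2 → ℂ) → (Fin 2 → ℂ), (∀ k, g k ∈ 𝓕) →
    ∃ φ : ℕ → ℕ, StrictMono φ ∧ ∃ G : (Fin 2 → ℂ) → (Fin 2 → ℂ),
      TendstoLocallyUniformlyOn (fun k => g (φ k)) G atTop (ball 0 1)

/-- The class `S^0(U^2)` of maps with parametric representation: `f = F 0` for a normalized
Loewner chain `F` such that the maps `e^{-t} F t`, `t ≥ 0`, form a normal family on the bidisc. -/
def classS0 : Set ((Fin 2 → ℂ) → (Fin 2 → ℂ)) :=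
  {f | ∃ F : ℝ → (Fin 2 → ℂ) → (Fin 2 → ℂ), IsLoewnerChain F ∧ F 0 = f ∧
    IsNormalFamily {g | ∃ t : ℝ, 0 ≤ t ∧ g = fun z => ((Real.exp (-t) : ℝ) : ℂ) • F t z}}

/-- The class `S^0(U^2, M)`: the members of `S^0(U^2)` with `‖f z‖ ≤ M` on the bidisc. -/
def classS0M (M : ℝ) : Set ((Fin 2 → ℂ) → (Fin 2 → ℂ)) :=
  {f | f ∈ classS0 ∧ ∀ z ∈ ball (0 : Fin 2 → ℂ) 1, ‖f z‖ ≤ M}

/-- `coef f j k = (1/2) ∂²f_j/∂z_k² (0)`; so `coef f 0 1` is `a¹_{0,2}` and `coef f 1 0` is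
`a²_{2,0}`. -/
noncomputable def coef (f : (Fin 2 → ℂ) → (Fin 2 → ℂ)) (j k : Fin 2) : ℂ :=
  (1 / 2 : ℂ) * iteratedDeriv 2 (fun ζ : ℂ => f (Pi.single k ζ) j) 0

/-- the extremal map -/
noncomputable def ff (a : ℝ) (z : Fin 2 → ℂ) : Fin 2 → ℂ := ![z 0 + a * z 1 ^ 2, z 1]

theorem ff_diff (a : ℝ) : Differentiable ℂ (ff a) := by
  rw [differentiable_pi]
  intro i
  fin_cases i
  · simp only [ff]
    simp
    fun_prop
  · simp only [ff]
    simp
    fun_prop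

theorem ff_hasFDerivAt (a : ℝ) : HasFDerivAt (ff a) (ContinuousLinearMap.id ℂ (Fin 2 → ℂ)) 0 := by
  have h0 : HasFDerivAt (fun z : Fin 2 → ℂ => z 0)
      (ContinuousLinearMap.proj (R := ℂ) (φ := fun _ : Fin 2 => ℂ) 0) 0 :=
    hasFDerivAt_apply 0 0
  have h1 : HasFDerivAt (fun z : Fin 2 → ℂ => z 1)
      (ContinuousLinearMap.proj (R := ℂ) (φ := fun _ : Fin 2 => ℂ) 1) 0 :=
    hasFDerivAt_apply 1 0
  have h2 := h0.fun_add ((h1.pow 2).const_mul (a : ℂ))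
  rw [hasFDerivAt_pi']
  intro i
  fin_cases i
  · have e : (ContinuousLinearMap.proj (R := ℂ) (φ := fun _ : Fin 2 => ℂ) 0).comp
        (ContinuousLinearMap.id ℂ (Fin 2 → ℂ)) =
        ContinuousLinearMap.proj (R := ℂ) (φ := fun _ : Fin 2 => ℂ) 0 +
          (a : ℂ) • ((2 * (0 : Fin 2 → ℂ) 1 ^ (2 - 1)) •
            ContinuousLinearMap.proj (R := ℂ) (φ := fun _ : Fin 2 => ℂ) 1) := by
      ext v
      simp
    have h3 : HasFDerivAt (fun z : Fin 2 → ℂ => z 0 + (a : ℂ) * z 1 ^ 2)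
        ((ContinuousLinearMap.proj (R := ℂ) (φ := fun _ : Fin 2 => ℂ) 0).comp
        (ContinuousLinearMap.id ℂ (Fin 2 → ℂ))) 0 := by
      rw [e]
      simpa using h2
    exact h3
  · exact h1

theorem ff_zero (a : ℝ) : ff a 0 = 0 := by
  ext i
  fin_cases i <;> simp [ff]

theorem ff_inj (a : ℝ) : Function.Injective (ff a) := by
  intro z w h
  have h0 := congrFun h 0
  have h1 := congrFun h 1
  simp only [ff, Matrix.cons_val_zero, Matrix.cons_val_one, Matrix.cons_val_fin_one] at h0 h1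
  rw [h1] at h0
  have h2 : z 0 = w 0 := by linear_combination h0
  ext i
  fin_cases i
  · exact h2
  · exact h1

theorem ff_star {a : ℝ} (ha0 : 0 ≤ a) (ha1 : a ≤ 1) {σ : ℝ} (hσ0 : 0 < σ) (hσ1 : σ ≤ 1)
    {z : Fin 2 → ℂ} (hz : z ∈ ball (0 : Fin 2 → ℂ) 1) :
    ∃ w ∈ ball (0 : Fin 2 → ℂ) 1, ff a w = (σ : ℂ) • ff a z := by
  rw [mem_ball_zero_iff] at hz
  have hz0 : ‖z 0‖ ≤ ‖z‖ := norm_le_pi_norm z 0
  have hz1 : ‖z 1‖ ≤ ‖z‖ := norm_le_pi_norm z 1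
  have hn : 0 ≤ ‖z‖ := norm_nonneg z
  refine ⟨![σ * z 0 + a * σ * (1 - σ) * z 1 ^ 2, σ * z 1], ?_, ?_⟩
  · rw [mem_ball_zero_iff, pi_norm_lt_iff one_pos]
    intro i
    fin_cases i
    · simp only [Fin.zero_eta, Matrix.cons_val_zero]
      have h1 : ‖(σ : ℂ) * z 0‖ ≤ σ * ‖z‖ := by
        rw [norm_mul, Complex.norm_real, Real.norm_of_nonneg hσ0.le]
        exact mul_le_mul_of_nonneg_left hz0 hσ0.le
      have h2 : ‖(a : ℂ) * σ * (1 - σ) * z 1 ^ 2‖ ≤ σ * (1 - σ) * ‖z‖ := by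
        have h3 : (a : ℂ) * σ * (1 - σ) = ((a * σ * (1 - σ) : ℝ) : ℂ) := by push_cast; ring
        have h4 : 0 ≤ a * σ * (1 - σ) := by
          have : 0 ≤ 1 - σ := by linarith
          positivity
        rw [norm_mul, h3, Complex.norm_real, Real.norm_of_nonneg h4, norm_pow]
        have h5 : ‖z 1‖ ^ 2 ≤ ‖z‖ := by
          have : ‖z 1‖ ^ 2 ≤ ‖z‖ ^ 2 := by gcongr
          nlinarith
        have h6 : a * σ * (1 - σ) ≤ σ * (1 - σ) := by
          have : 0 ≤ σ * (1 - σ) := by nlinarith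
          nlinarith
        exact mul_le_mul h6 h5 (by positivity) (by nlinarith)
      calc ‖(σ : ℂ) * z 0 + (a : ℂ) * σ * (1 - σ) * z 1 ^ 2‖
          ≤ ‖(σ : ℂ) * z 0‖ + ‖(a : ℂ) * σ * (1 - σ) * z 1 ^ 2‖ := norm_add_le _ _
        _ ≤ σ * ‖z‖ + σ * (1 - σ) * ‖z‖ := add_le_add h1 h2
        _ < 1 := by nlinarith [sq_nonneg (1 - σ)]
    · simp only [Fin.mk_one, Matrix.cons_val_one, Matrix.cons_val_fin_one]
      rw [norm_mul, Complex.norm_real, Real.norm_of_nonneg hσ0.le]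
      nlinarith [norm_nonneg (z 1)]
  · ext i
    fin_cases i
    · simp [ff]
      ring
    · simp [ff]

theorem ff_mem {a : ℝ} (ha0 : 0 ≤ a) (ha1 : a ≤ 1) : ff a ∈ classS0 := by
  refine ⟨fun t z => ((Real.exp t : ℝ) : ℂ) • ff a z, ⟨?_, ?_, ?_, ?_, ?_⟩, ?_, ?_⟩
  · intro t _
    exact ((ff_diff a).fun_const_smul ((Real.exp t : ℝ) : ℂ)).differentiableOn
  · intro t _ z _ w _ h
    apply ff_inj a
    have hne : ((Real.exp t : ℝ) : ℂ) ≠ 0 := by exact_mod_cast (Real.exp_pos t).ne'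
    exact smul_right_injective _ hne h
  · intro t _
    simp [ff_zero]
  · intro t _
    exact ((ff_hasFDerivAt a).fun_const_smul ((Real.exp t : ℝ) : ℂ)).fderiv
  · rintro s t hs hst _ ⟨z, hz, rfl⟩
    obtain ⟨w, hw, hw2⟩ := ff_star ha0 ha1 (σ := Real.exp (s - t)) (Real.exp_pos _)
      (Real.exp_le_one_iff.2 (by linarith)) hz
    refine ⟨w, hw, ?_⟩
    simp only []
    rw [hw2, smul_smul]
    congr 1
    rw [← Complex.ofReal_mul, ← Real.exp_add]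
    congr 2
    ring
  · ext z i
    simp
  · intro g hg
    have hg' : ∀ k, g k = ff a := by
      intro k
      obtain ⟨t, ht, h⟩ := hg k
      rw [h]
      ext1 z
      simp only []
      rw [smul_smul, ← Complex.ofReal_mul, ← Real.exp_add]
      simp
    refine ⟨id, strictMono_id, ff a, ?_⟩
    have : (fun k => g (id k)) = fun _ => ff a := by ext1 k; exact hg' k
    rw [this]
    intro u hu x hx
    exact ⟨univ, univ_mem, Eventually.of_forall fun n y _ => refl_mem_uniformity hu⟩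

theorem ff_norm {a : ℝ} (ha0 : 0 ≤ a) {z : Fin 2 → ℂ} (hz : z ∈ ball (0 : Fin 2 → ℂ) 1) :
    ‖ff a z‖ ≤ 1 + a := by
  rw [mem_ball_zero_iff] at hz
  have hz0 : ‖z 0‖ ≤ 1 := (norm_le_pi_norm z 0).trans hz.le
  have hz1 : ‖z 1‖ ≤ 1 := (norm_le_pi_norm z 1).trans hz.le
  rw [pi_norm_le_iff_of_nonneg (by linarith)]
  intro i
  fin_cases i
  · simp only [ff, Fin.zero_eta, Matrix.cons_val_zero]
    calc ‖z 0 + (a : ℂ) * z 1 ^ 2‖ ≤ ‖z 0‖ + ‖(a : ℂ) * z 1 ^ 2‖ := norm_add_le _ _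
      _ ≤ 1 + a * 1 := by
        rw [norm_mul, Complex.norm_real, Real.norm_of_nonneg ha0, norm_pow]
        have : ‖z 1‖ ^ 2 ≤ 1 := pow_le_one₀ (norm_nonneg _) hz1
        have := mul_le_mul_of_nonneg_left this ha0
        linarith
      _ = 1 + a := by ring
  · simp only [ff, Fin.mk_one, Matrix.cons_val_one, Matrix.cons_val_fin_one]
    linarith

theorem ff_coef (a : ℝ) : coef (ff a) 0 1 = a := by
  have h : (fun ζ : ℂ => ff a (Pi.single 1 ζ) 0) = fun ζ : ℂ => (a : ℂ) * ζ ^ 2 := by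
    ext1 ζ
    simp [ff]
  rw [coef, h, iteratedDeriv_const_mul_field]
  have : iteratedDeriv 2 (fun z : ℂ => z ^ 2) 0 = 2 := by
    rw [iteratedDeriv_fun_pow_zero]
    norm_num [Nat.factorial]
  rw [this]
  ring

open Pool.Agent.Helper540 in
theorem tc_le {g : ℂ → ℂ} (hg : DifferentiableOn ℂ g (ball 0 1)) {M : ℝ}
    (hM : ∀ z ∈ ball (0 : ℂ) 1, ‖g z‖ ≤ M) : ‖tc 2 g‖ ≤ M := by
  have key : ∀ r : ℝ, 0 < r → r < 1 → ‖tc 2 g‖ ≤ M / r ^ 2 := by
    intro r hr hr1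
    have h1 : DiffContOnCl ℂ g (ball 0 r) := by
      apply DifferentiableOn.diffContOnCl
      rw [closure_ball _ hr.ne']
      exact hg.mono (closedBall_subset_ball hr1)
    have h2 := Complex.norm_iteratedDeriv_le_of_forall_mem_sphere_norm_le 2 hr h1 (C := M) (by
      intro z hz
      apply hM
      rw [mem_sphere, dist_zero_right] at hz
      rw [mem_ball, dist_zero_right, hz]
      exact hr1)
    rw [tc, norm_smul, norm_inv]
    have h3 : ‖((Nat.factorial 2 : ℕ) : ℂ)‖ = 2 := by norm_num [Nat.factorial]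
    rw [h3]
    have h4 : ((Nat.factorial 2 : ℕ) : ℝ) = 2 := by norm_num [Nat.factorial]
    rw [h4] at h2
    calc (2 : ℝ)⁻¹ * ‖iteratedDeriv 2 g 0‖ ≤ (2 : ℝ)⁻¹ * (2 * M / r ^ 2) := by gcongr
      _ = M / r ^ 2 := by ring
  have h5 : Tendsto (fun r : ℝ => M / r ^ 2) (𝓝[<] 1) (𝓝 (M / 1 ^ 2)) := by
    apply Tendsto.mono_left _ nhdsWithin_le_nhds
    apply Tendsto.div tendsto_const_nhds
    · exact (continuous_pow 2).tendsto 1
    · norm_num
  have h6 : ‖tc 2 g‖ ≤ M / 1 ^ 2 := by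
    apply ge_of_tendsto h5
    filter_upwards [Ioo_mem_nhdsLT (show (0 : ℝ) < 1 by norm_num)] with r hr
    exact key r hr.1 hr.2
  simpa using h6

open Pool.Agent.Helper540 in
/-- the key coefficient identity along `ζ ↦ (ζ², cζ)` -/
theorem tc_curve {f : (Fin 2 → ℂ) → ℂ} (hf : DifferentiableOn ℂ f (ball 0 1))
    (i j : Fin 2) (hij : i ≠ j) (hi : fderiv ℂ f 0 (Pi.single i 1) = 1) {c : ℂ} (hc : ‖c‖ = 1) :
    DifferentiableOn ℂ (fun ζ : ℂ => f (Pi.single i (ζ ^ 2) + Pi.single j (c * ζ))) (ball 0 1) ∧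
    MapsTo (fun ζ : ℂ => (Pi.single i (ζ ^ 2) + Pi.single j (c * ζ) : Fin 2 → ℂ)) (ball 0 1)
      (ball 0 1) ∧
    tc 2 (fun ζ : ℂ => f (Pi.single i (ζ ^ 2) + Pi.single j (c * ζ))) =
      1 + c ^ 2 * tc 2 (fun ζ : ℂ => f (Pi.single j ζ)) := by
  have hsing : ∀ (k : Fin 2) (x : ℂ), ‖(Pi.single k x : Fin 2 → ℂ)‖ = ‖x‖ := fun k x =>
    Pi.norm_single (G := fun _ : Fin 2 => ℂ) x
  have hmaps : MapsTo (fun ζ : ℂ => (Pi.single i (ζ ^ 2) + Pi.single j (c * ζ) : Fin 2 → ℂ))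
      (ball 0 1) (ball 0 1) := by
    intro ζ hζ
    rw [mem_ball_zero_iff] at *
    rw [pi_norm_lt_iff one_pos]
    intro k
    by_cases hk : k = i
    · subst hk
      simp only [Pi.add_apply, Pi.single_eq_same, Pi.single_eq_of_ne hij, add_zero, norm_pow]
      nlinarith [norm_nonneg ζ]
    · have hkj : k = j := by
        fin_cases k <;> fin_cases i <;> fin_cases j <;> simp_all
      subst hkj
      simp only [Pi.add_apply, Pi.single_eq_same, Pi.single_eq_of_ne hk, zero_add, norm_mul, hc,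
        one_mul]
      exact hζ
  have hcurve : Differentiable ℂ
      (fun ζ : ℂ => (Pi.single i (ζ ^ 2) + Pi.single j (c * ζ) : Fin 2 → ℂ)) := by
    rw [differentiable_pi]
    intro k
    simp only [Pi.add_apply, Pi.single_apply]
    split_ifs <;> fun_prop
  have hd1 : DifferentiableOn ℂ (fun ζ : ℂ => f (Pi.single i (ζ ^ 2) + Pi.single j (c * ζ)))
      (ball 0 1) := hf.comp hcurve.differentiableOn hmaps
  have hlin : ∀ d : ℂ, Differentiable ℂ (fun ζ : ℂ => (Pi.single j (ζ * d) : Fin 2 → ℂ)) := by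
    intro d
    rw [differentiable_pi]
    intro k
    simp only [Pi.single_apply]
    split_ifs <;> fun_prop
  have hd2 : DifferentiableOn ℂ (fun ζ : ℂ => f (Pi.single j ζ)) (ball 0 1) := by
    have h := hlin 1
    simp only [mul_one] at h
    apply hf.comp h.differentiableOn
    intro ζ hζ
    rw [mem_ball_zero_iff] at *
    rw [hsing]
    exact hζ
  have hd3 : DifferentiableOn ℂ (fun ζ : ℂ => f (Pi.single j (ζ * c))) (ball 0 1) := by
    apply hf.comp (hlin c).differentiableOn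
    intro ζ hζ
    rw [mem_ball_zero_iff] at *
    rw [hsing, norm_mul, hc, mul_one]
    exact hζ
  refine ⟨hd1, hmaps, ?_⟩
  have h0 : (0 : Fin 2 → ℂ) ∈ ball (0 : Fin 2 → ℂ) 1 := mem_ball_self one_pos
  obtain ⟨R, hR, M, hM0, hsub, hM⟩ := exists_bound isOpen_ball hf h0
  have hF := differentiableOn_fderiv_apply isOpen_ball hf (Pi.single i (1 : ℂ))
  obtain ⟨R', hR', M', hM0', hsub', hM'⟩ := exists_bound isOpen_ball hF h0
  set r : ℝ := min (min (R / 2) (R' / 2)) 1 with hr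
  have hr0 : 0 < r := by positivity
  set g : ℂ → ℂ := fun ζ => f (Pi.single i (ζ ^ 2) + Pi.single j (c * ζ)) -
    (f (Pi.single j (ζ * c)) + ζ ^ 2 • (1 : ℂ)) with hg
  have hsq : Differentiable ℂ (fun ζ : ℂ => ζ ^ 2 • (1 : ℂ)) := by fun_prop
  have hgd : DifferentiableOn ℂ g (ball 0 r) :=
    (hd1.sub (hd3.add hsq.differentiableOn)).mono (ball_subset_ball (min_le_right _ _))
  have hg0 : tc 2 g = 0 := by
    apply tc_eq_zero_of_bound (R := r) (C := 4 * M * (2 / R) ^ 2 + 4 * M' / R') 2 hr0 hgd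
    intro ζ hζ
    rw [mem_ball_zero_iff] at hζ
    have hζ1 : ‖ζ‖ < R / 2 := lt_of_lt_of_le hζ ((min_le_left _ _).trans (min_le_left _ _))
    have hζ2 : ‖ζ‖ < R' / 2 := lt_of_lt_of_le hζ ((min_le_left _ _).trans (min_le_right _ _))
    have hζ3 : ‖ζ‖ < 1 := lt_of_lt_of_le hζ (min_le_right _ _)
    set w0 : Fin 2 → ℂ := Pi.single j (ζ * c) with hw0
    have hw0n : ‖w0‖ = ‖ζ‖ := by rw [hw0, hsing, norm_mul, hc, mul_one]
    have hw0m : w0 ∈ ball (0 : Fin 2 → ℂ) (R / 2) := by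
      rw [mem_ball_zero_iff, hw0n]; exact hζ1
    have hsub2 : ball w0 (R / 2) ⊆ ball 0 R := ball_half_subset hw0m
    have hpt : (Pi.single i (ζ ^ 2) + Pi.single j (c * ζ) : Fin 2 → ℂ) =
        w0 + ζ ^ 2 • Pi.single i (1 : ℂ) := by
      rw [hw0, mul_comm c ζ, add_comm, ← Pi.single_smul, smul_eq_mul, mul_one]
    have hn2 : ‖ζ ^ 2 • (Pi.single i (1 : ℂ) : Fin 2 → ℂ)‖ = ‖ζ‖ ^ 2 := by
      rw [norm_smul, hsing, norm_pow, norm_one, mul_one]
    have hm2 : w0 + ζ ^ 2 • (Pi.single i (1 : ℂ) : Fin 2 → ℂ) ∈ ball w0 (R / 2) := by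
      rw [mem_ball, dist_eq_norm, add_sub_cancel_left, hn2]
      nlinarith [norm_nonneg ζ]
    have e1 := norm_sub_sub_fderiv_le (by linarith : 0 < R / 2) (hf.mono (hsub2.trans hsub))
      (fun z hz => hM z (hsub2 hz)) hm2
    rw [add_sub_cancel_left, hn2, map_smul] at e1
    have e2 := lipschitz_half (hF.mono hsub') hM' (mem_ball_self (by linarith : 0 < R' / 2))
      (z := w0) (by rw [mem_ball_zero_iff, hw0n]; exact hζ2)
    rw [sub_zero, hw0n, hi] at e2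
    have e3 : g ζ = (f (w0 + ζ ^ 2 • Pi.single i (1 : ℂ)) - f w0 -
        ζ ^ 2 • fderiv ℂ f w0 (Pi.single i 1)) + ζ ^ 2 • (fderiv ℂ f w0 (Pi.single i 1) - 1) := by
      simp only [hg, smul_eq_mul]
      rw [hpt]
      ring
    rw [e3]
    have e4 : ‖ζ ^ 2 • (fderiv ℂ f w0 (Pi.single i 1) - 1)‖ ≤ ‖ζ‖ ^ 2 * (4 * M' / R' * ‖ζ‖) := by
      rw [norm_smul, norm_pow]
      exact mul_le_mul_of_nonneg_left e2 (by positivity)
    have e5 : 4 * M * (‖ζ‖ ^ 2 / (R / 2)) ^ 2 ≤ 4 * M * (2 / R) ^ 2 * ‖ζ‖ ^ 3 := by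
      have : 4 * M * (‖ζ‖ ^ 2 / (R / 2)) ^ 2 = 4 * M * (2 / R) ^ 2 * ‖ζ‖ ^ 3 * ‖ζ‖ := by
        field_simp
      rw [this]
      have h6 : 0 ≤ 4 * M * (2 / R) ^ 2 * ‖ζ‖ ^ 3 := by positivity
      nlinarith
    calc _ ≤ _ := norm_add_le _ _
      _ ≤ 4 * M * (2 / R) ^ 2 * ‖ζ‖ ^ 3 + ‖ζ‖ ^ 2 * (4 * M' / R' * ‖ζ‖) :=
        add_le_add (e1.trans e5) e4
      _ = (4 * M * (2 / R) ^ 2 + 4 * M' / R') * ‖ζ‖ ^ (2 + 1) := by ring
  have h1 : (fun ζ : ℂ => f (Pi.single i (ζ ^ 2) + Pi.single j (c * ζ))) =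
      fun ζ => g ζ + (f (Pi.single j (ζ * c)) + ζ ^ 2 • (1 : ℂ)) := by
    ext1 ζ
    simp only [hg]
    ring
  rw [h1, tc_add 2 (contDiffAt_of_ball hr0 hgd 2), hg0, zero_add,
    tc_add 2 (contDiffAt_of_ball one_pos hd3 2) (contDiffAt_of_ball one_pos hsq.differentiableOn 2),
    tc_pow_smul, if_pos rfl]
  · have h2 := tc_comp_smul one_pos hd2 2 c
    simp only [smul_eq_mul] at h2
    rw [h2]
    ring
  · exact (contDiffAt_of_ball one_pos (hd3.add hsq.differentiableOn) 2)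

theorem exists_rot (a : ℂ) : ∃ c : ℂ, ‖c‖ = 1 ∧ c ^ 2 * a = ‖a‖ := by
  by_cases ha : a = 0
  · exact ⟨1, by simp [ha]⟩
  · refine ⟨Complex.exp (-(a.arg / 2 : ℝ) * Complex.I), ?_, ?_⟩
    · rw [← Complex.ofReal_neg, Complex.norm_exp_ofReal_mul_I]
    · have h1 := Complex.norm_mul_exp_arg_mul_I a
      have : ((2 : ℕ) : ℂ) * (-(a.arg / 2 : ℝ) * Complex.I) + a.arg * Complex.I = 0 := by
        push_cast; ring
      calc _ = Complex.exp (((2 : ℕ) : ℂ) * (-(a.arg / 2 : ℝ) * Complex.I)) *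
            (‖a‖ * Complex.exp (a.arg * Complex.I)) := by rw [← Complex.exp_nat_mul, h1]
        _ = ‖a‖ * Complex.exp (((2 : ℕ) : ℂ) * (-(a.arg / 2 : ℝ) * Complex.I) +
            a.arg * Complex.I) := by rw [Complex.exp_add]; ring
        _ = ‖a‖ := by rw [this, Complex.exp_zero, mul_one]

open Pool.Agent.Helper540 in
theorem upper {M : ℝ} {f : (Fin 2 → ℂ) → (Fin 2 → ℂ)} (hf : f ∈ classS0M M)
    {i j : Fin 2} (hij : i ≠ j) : ‖coef f i j‖ ≤ M - 1 := by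
  obtain ⟨⟨F, hF, rfl, -⟩, hM⟩ := hf
  have hd := hF.holo 0 le_rfl
  have hder := hF.deriv 0 le_rfl
  have h0 : (0 : Fin 2 → ℂ) ∈ ball (0 : Fin 2 → ℂ) 1 := mem_ball_self one_pos
  have hdi : DifferentiableOn ℂ (fun z => F 0 z i) (ball 0 1) := (differentiableOn_pi.1 hd) i
  have hfi : fderiv ℂ (fun z => F 0 z i) 0 (Pi.single i 1) = 1 := by
    have h1 : HasFDerivAt (F 0) (fderiv ℂ (F 0) 0) 0 :=
      (hd.differentiableAt (isOpen_ball.mem_nhds h0)).hasFDerivAt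
    have h2 := (hasFDerivAt_pi'.1 h1) i
    rw [h2.fderiv, hder]
    simp
  obtain ⟨c, hc, hc2⟩ := exists_rot (coef (F 0) i j)
  obtain ⟨k1, k2, k3⟩ := tc_curve hdi i j hij hfi hc
  have hco : tc 2 (fun ζ : ℂ => F 0 (Pi.single j ζ) i) = coef (F 0) i j := by
    rw [tc, coef]
    norm_num [Nat.factorial]
  rw [hco, hc2] at k3
  have k4 := tc_le k1 (M := M) (fun z hz => (norm_le_pi_norm _ i).trans (hM _ (k2 hz)))
  rw [k3] at k4
  have k5 : ‖(1 : ℂ) + (‖coef (F 0) i j‖ : ℂ)‖ = 1 + ‖coef (F 0) i j‖ := by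
    rw [← Complex.ofReal_one, ← Complex.ofReal_add, Complex.norm_real]
    exact Real.norm_of_nonneg (by positivity)
  linarith

/-- For every `M > 1` the conjectured bound `1 - 1/M` fails on `S^0(U^2, M)`: some member has
`a¹_{0,2} = min (1, M - 1) > 1 - 1/M`. On the other hand `M - 1` is always an upper bound for
`|a¹_{0,2}|` and `|a²_{2,0}|`, so that the sharp bound equals `M - 1` for `1 < M ≤ 2`. -/
theorem result (M : ℝ) (hM : 1 < M) :
    (∃ f ∈ classS0M M, coef f 0 1 = ((min 1 (M - 1) : ℝ) : ℂ) ∧ 1 - 1 / M < ‖coef f 0 1‖) ∧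
    ∀ f ∈ classS0M M, ‖coef f 0 1‖ ≤ M - 1 ∧ ‖coef f 1 0‖ ≤ M - 1 := by
  have ha0 : 0 < min 1 (M - 1) := lt_min one_pos (by linarith)
  have ha1 : min 1 (M - 1) ≤ 1 := min_le_left _ _
  have ha2 : min 1 (M - 1) ≤ M - 1 := min_le_right _ _
  refine ⟨⟨ff (min 1 (M - 1)), ⟨ff_mem ha0.le ha1, ?_⟩, ff_coef _, ?_⟩, ?_⟩
  · intro z hz
    have := ff_norm ha0.le hz
    linarith
  · rw [ff_coef, Complex.norm_real, Real.norm_of_nonneg ha0.le, lt_min_iff]
    have h1 : 0 < 1 / M := by positivity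
    constructor
    · linarith
    · have h2 : 1 / M * M = 1 := by field_simp
      nlinarith
  · exact fun f hf => ⟨upper hf (by decide), upper hf (by decide)⟩

end Pool.Agent.Results.MP_5d6127_an.SharpLarger
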